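import Pool.Agent.Run7.h293.SP.D

/-!
# Semisimplicity from local monodromy with any number of Jordan blocks of size one

Let `M` be a polarized pure motive of weight `w` over a number field `F`, and let `V` be its `ℓ`-adic
realization, with the polarization `ω` (`PolarizedRep`; good reduction at three prime numbers, which is
automatic). At a place `v` above a prime number `p ≠ ℓ` let `τ` be an element of the inertia group which acts
unipotently as in Grothendieck's monodromy theorem. `Controlled`: the weight-monodromy
property at `v` (known for instance for complete intersections, Scholze), or anisotropic graded pieces,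
and the same or good reduction at the other places above `p`.

The hand-in `DifferentJordanBlocks` (MP_c184fc_ag, this run) needs that all the Jordan blocks of `τ`
have different sizes. This is rarely true for the blocks of size one: a variety with a
mild singularity modulo `p` has very few vanishing cycles, and very many blocks of size one. Here the
number of blocks of size one is arbitrary, or the prime `ℓ` is arbitrary.

**Theorem 1.** Suppose that at the places of a family `D` the monodromy is controlled, that the
graded pieces of positive level (those of the blocks of size `≥ 2`) have no isotropic subspaces which are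
stable under the decomposition group and a ring `E` of coefficients (for instance: for each `m ≥ 2` there
is at most one block of size `m`), and that no nonzero isotropic stable subspace is fixed by all the
elements `τ` of `D`. Then `V` is semisimple, also under all subgroups of finite index, and all stable
`E`-subspaces are nondegenerate.

**Theorem 2.** Suppose that the sizes `≥ 2` of the Jordan blocks are different at each place of `D`,
and that no nonzero stable subspace is fixed by all the `τ` in `D`. Then moreover the algebra of
all endomorphisms which commute with the Galois group is commutative, its elements are self-adjoint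
and diagonalizable over `ℚ_ℓ`, and its dimension is at most the number of the blocks of size `≥ 2` at
the places of `D`. So `V` is the orthogonal sum of absolutely irreducible, pairwise different
subspaces, and their number is at most the number of these blocks. If there is only one such block then
`V` is absolutely irreducible.

Example: `F = ℚ`, `ℓ = 7`, `V = H ^ 3 (X)` for a smooth projective `X` over `ℚ` with good reduction at `7` and
semistable reduction elsewhere, `D` the bad primes. By Fontaine's theorem there is no crystalline
representation with Hodge-Tate weights in `[0, 3]`, of odd weight, which is unramified outside `7`; so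
no nonzero stable subspace is fixed by all the `τ`. Hence `H ^ 3 (X)` is semisimple if it has the
weight-monodromy property and different nontrivial blocks at the bad primes.

**Theorem 3.** Let the monodromy be controlled at one place `v`, with different sizes `≥ 2` and at most three
blocks of size one, and suppose that `V` has no stable line. Then `V` is semisimple and all stable
subspaces are nondegenerate. There is no stable line if the weight is odd, and if each
stable line is, up to finite order, an integral power of the cyclotomic character (this is the case if `V`
is a Hodge-Tate representation at `ℓ`, and `F` has no CM subfield, for instance if `F = ℚ`).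

Example: `F = ℚ`, `V` of dimension four and odd weight (for instance a Calabi-Yau threefold with
`h ^ {2, 1} = 1`), and a prime `p` with one vanishing cycle (a node), the block sizes `2, 1, 1`: for
all `ℓ ≠ p` the representation `V_ℓ` is semisimple, if the weight-monodromy property holds at `p`.

Proof. By the `ℓ`-adic six exponentials theorem and class field theory, `(τ - 1) ^ m R = R ∩ (τ - 1) ^ m V`
for all stable subspaces `R` (`pure_of_controlled`). If `R` is isotropic then its images in the graded
pieces of positive level are isotropic, hence zero, and this shows that `τ` fixes `R`; moreover
`2 dim R` is at most the number of the blocks of size one. For Theorem 2, an endomorphism which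
commutes with the group and vanishes on the graded pieces of positive level has a kernel with a stable complement
which is fixed by all the `τ`.
-/

set_option autoImplicit false

namespace Pool.Agent.Results.MP_8f1292_ag.BlocksOfSizeOne

open NumberField IsDedekindDomain Polynomial Module Run7.h293.LM Run7.h293.SP Pool.Agent.Y114.GF
  Pool.Agent.Y114.MU Pool.Agent.N978.JT

section

variable {F : Type} [Field F] [NumberField F] {Γ : Type} [Group Γ] {ℓ : ℕ} [Fact ℓ.Prime] {w : ℕ}
  {Y : Type} [AddCommGroup Y] [Module ℚ_[ℓ] Y] [FiniteDimensional ℚ_[ℓ] Y]
  (V : PolarizedRep F Γ ℓ w Y)

/-- **Theorem 1.** -/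
def TheoremOne : Prop :=
  ∀ (κ : Type) (D : κ → LocalData F) (E : Set (End ℚ_[ℓ] Y)), V.Coefficients E →
    ControlledAt V D E → (∀ c, AnisotropicPositive V E (D c).v (D c).Q (D c).τ) →
    NoIsotropicFixed V D E → Semisimple V ∧ Nondegenerate V E

/-- Different sizes `≥ 2`: the graded pieces of positive level are anisotropic. -/
def DifferentBlocksAreAnisotropic : Prop :=
  ∀ (κ : Type) (D : κ → LocalData F) (l : κ → Multiset ℕ), ControlledAt V D ∅ →
    (∀ c, DifferentNontrivialBlocks V (D c).τ (l c)) →
    ∀ c, AnisotropicPositive V ∅ (D c).v (D c).Q (D c).τ

/-- **Theorem 2.** -/
def TheoremTwo : Prop :=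
  ∀ (κ : Type) [Fintype κ] (D : κ → LocalData F) (l : κ → Multiset ℕ), ControlledAt V D ∅ →
    (∀ c, DifferentNontrivialBlocks V (D c).τ (l c)) → NothingFixed V D →
    (Semisimple V ∧ Nondegenerate V ∅) ∧ SmallCommutant V (∑ c, nontrivial (l c)) ∧
      (∑ c, nontrivial (l c) ≤ 1 → AbsolutelyIrreducible V)

/-- **Theorem 3.** -/
def TheoremThree : Prop :=
  (∀ (D : LocalData F) (l : Multiset ℕ), V.Controlled ∅ D.p D.v D.Q D.τ →
    DifferentNontrivialBlocks V D.τ l → l.count 1 ≤ 3 → NoLine V →
      Semisimple V ∧ Nondegenerate V ∅) ∧
  (Odd w → IntegralLines V → NoLine V)

end

/-- **Semisimplicity from local monodromy with blocks of size one.** -/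
theorem result {F : Type} [Field F] [NumberField F] {Γ : Type} [Group Γ] {ℓ : ℕ} [Fact ℓ.Prime]
    {w : ℕ} {Y : Type} [AddCommGroup Y] [Module ℚ_[ℓ] Y] [FiniteDimensional ℚ_[ℓ] Y]
    (V : PolarizedRep F Γ ℓ w Y) (h3 : V.ThreeGood) :
    TheoremOne V ∧ DifferentBlocksAreAnisotropic V ∧ TheoremTwo V ∧ TheoremThree V := by
  have hab : DifferentBlocksAreAnisotropic V := fun κ D l hc hl c =>
    anisotropicPositive_of (hc c).2.2.choose_spec.2.1.1 (above_ne (hc c).1 (hc c).2.1) (hl c)
  refine ⟨fun κ D E hE hc ha hN => main_one h3 hE hc ha hN, hab, ?_, ?_, ?_⟩
  · intro κ _ D l hc hl hN
    have h1 := main_one h3 coefficients_empty hc (hab κ D l hc hl) fun R hR _ _ hfix => hN R hR hfix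
    have h2 := main_commutant h3 hc hl hN
    exact ⟨h1, h2, fun hs => irreducible_of_commutant (h1.1 ⊤ inferInstance) (h2.2.trans hs)⟩
  · intro D l hc hl hs hno
    have hc' : ControlledAt V (fun _ : Unit => D) ∅ := fun _ => hc
    exact main_one h3 coefficients_empty hc' (hab Unit _ (fun _ => l) hc' fun _ => hl)
      (main_few h3 hc' (fun _ => hl) ⟨(), Or.inr ⟨hs, hno⟩⟩)
  · exact noLine_of_odd h3

end Pool.Agent.Results.MP_8f1292_ag.BlocksOfSizeOne
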