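import Pool.Agent.Run7.h798.Tate.Gal

/-!
# MP_8f1292_ag, Q1: the Grothendieck–Serre semisimplicity conjecture and singular cubic hypersurfaces

`D` is the `ℓ`-adic cohomology of the schemes over number fields with the action of the Galois groups. For
a scheme `X` over `ℚ` the representation `h r j X` is the part of lowest weight of `H_{2j-r}(X̄, E)`
(homology with closed supports), twisted by `-j`; for `X` smooth projective of dimension `d` it is
`H^i(X̄, E)(d-j)` with `i = 2(d-j) + r`.
-/

set_option autoImplicit false

open CategoryTheory AlgebraicGeometry Pool.Agent.Y116.UV Pool.Agent.Q193.LT Pool.Agent.Q282.UK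
  Pool.Agent.Q282.UZ Run7.h798.UV Run7.h798.Tate Run7.h798.Tate.Gal

namespace Pool.Agent.Results.MP_8f1292_ag.CubicHypersurfaces

/-- **Theorem.** Let `r` be a weight and `N` a natural number. The following are equivalent:

* (Q1) the representations `H^i(X̄, E)` of the Galois groups of all number fields `K` for all smooth
  projective varieties `X` over `K`, in all degrees congruent to `r` modulo `2`, are semisimple;
* the part of lowest weight of the homology `H_{2j-r}(X̄, E)` is a semisimple representation of `Gal(ℚ̄/ℚ)`
  for all separated schemes `X` of finite type over `ℚ` and all `j`;
* this is true in the dimensions `j ≥ N` for the (singular) cubic hypersurfaces in the projective spaces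
  over `ℚ`;
* this is true in the dimensions `j ≥ N` for the cubic hypersurfaces over `ℚ` given by trilinear forms
  `∑_l z_l f_l(x, y)` in which every `f_l` is a sum of at most three monomials `x_i y_j`.

The proof shows that the cohomology of every smooth projective variety over `ℚ` is a quotient of the part
of lowest weight of the homology of one such cubic hypersurface. -/
theorem result {E : Type} [Field E] (D : Theory E) (r : ℤ) (N : ℕ) :
    [D.SmoothProj r, D.All r, D.Cubics r N, D.Trilinear r N].TFAE :=
  main D r N

end Pool.Agent.Results.MP_8f1292_ag.CubicHypersurfaces
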