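import Pool.Agent.Results.MP_8f1292_ag.RelationFreeFrobenius
import Pool.Agent.Run7.h479.SO.Iso

/-!
# Semisimplicity for every `ℓ` from the slopes of Frobenius at one prime number

Let `ρ` be the representation of the absolute Galois group of a number field `F` on the `ℓ`-adic
realization of a polarized pure motive of weight `w > 0` over `F` (for example on `H^w(X)`, `w` odd,
or on a part of it cut out by correspondences, for `X` smooth and projective over `F`), for any
prime number `ℓ`. The theorem needs no assumption on the Hodge numbers, on the dimension or on the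
image of the Galois group: `ρ` is semisimple if at ONE prime number `p ≠ ℓ` (of good reduction and
unramified in `F`) the complex roots of the Frobenius polynomials at the places `v` above `p` are,
with multiplicities, the conjugates of numbers `π k` in separated CM fields `K k`, such that the
slopes of each `π k` satisfy the following condition (`GoodSlopes`): there is a set `O` of complex
embeddings of `K k` which contains one of each pair of complex conjugate embeddings and is an orbit
of a group of automorphisms of `ℂ` that acts on it through a commutative group; the sum of the slope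
deviations over `O` is not zero; and the slope deviations on `O` are `b w + c` with numbers `b ≠ 0`
and `c` and natural numbers `w φ` whose sum over `O` is not a sum of prime divisors of the number of
elements of `O`.

For example let `F = ℚ` and let `P` be the Frobenius polynomial at `p`, irreducible, with root field
`K` of degree `2 r ^ m`, `r` prime, such that some prime number is inert in the maximal totally real
subfield of `K` and splits in `K`; then every `ℓ`-adic realization, `ℓ ≠ p`, is semisimple if the
slopes on the half orbit (in multiples of their greatest common divisor, minus their minimum) have a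
sum prime to `r`. The degrees `2 r ^ m` can be replaced by arbitrary even numbers.
-/

set_option autoImplicit false

namespace Pool.Agent.Results.MP_8f1292_ag.HalfOrbitSlopes

open NumberField IsDedekindDomain Polynomial Matrix Module
  Pool.Agent.Results.MP_8f1292_ag.RelationFreeFrobenius Pool.Agent.Run7.h479.SO

/-- The family of numbers `π k` describes the Frobenius polynomials `P v` at the places `v` above
`p`: the number `π k` belongs to the place `pl k` above `p`, it is a Weil number of weight `w`,
`π k * conj (π k) = p ^ a k = q ^ w` with `a k > 0` and `q` the size of the residue field of `pl k`,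
and the complex roots of `P v` are, with multiplicities, the images of the `π k` with `pl k = v`
under all complex embeddings of `K k`. -/
structure Describes {F E : Type} [Field F] [NumberField F] [Field E] [NumberField E]
    (P : HeightOneSpectrum (𝓞 F) → E[X]) (ι : E →+* ℂ) (w : ℤ) (p : ℕ) {κ : Type} [Fintype κ]
    (K : κ → Type) [∀ k, Field (K k)] [∀ k, NumberField (K k)] [∀ k, IsCMField (K k)]
    (pl : κ → HeightOneSpectrum (𝓞 F)) (a : κ → ℕ) (π : ∀ k, K k) : Prop where
  above : ∀ k, Above (pl k) p
  pos : ∀ k, 0 < a k
  weight : ∀ k, (q (pl k) : ℝ) ^ w = (p : ℝ) ^ a k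
  weil : ∀ k, π k * IsCMField.complexConj (K k) (π k) = (p : K k) ^ a k
  roots : ∀ v, Above v p → ∃ s : Finset (Σ k, (K k →+* ℂ)), (∀ x, x ∈ s ↔ pl x.1 = v) ∧
    ((P v).map ι).roots = s.val.map fun x => x.2 (π x.1)

/-- **Semisimplicity from the slopes at one prime number.** -/
theorem result {F E : Type} [Field F] [NumberField F] [Field E] [NumberField E]
    (ℓ : ℕ) [Fact ℓ.Prime] {𝕂 : Type} [NormedField 𝕂] [NormedAlgebra ℚ_[ℓ] 𝕂]
    [FiniteDimensional ℚ_[ℓ] 𝕂] {n : ℕ} (ρ : Gal(AlgebraicClosure F/F) →* GL (Fin n) 𝕂)
    (hρ : Continuous ρ) (τ : E →+* 𝕂) (ι : E →+* ℂ) (w : ℤ)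
    (P : HeightOneSpectrum (𝓞 F) → E[X]) (T : Set ℕ) (hT3 : 3 ≤ T.encard)
    (hT : ∀ p ∈ T, p.Prime ∧ p ≠ ℓ ∧ UnramifiedIn F p)
    (hP : ∀ p ∈ T, ∀ v, Above v p → GoodAt ρ τ ι w v (P v)) (hpol : Polarized ℓ ρ w)
    -- the slopes at one prime number
    (p : ℕ) [Fact p.Prime] (hp : p ∈ T) {κ : Type} [Fintype κ] (K : κ → Type)
    [∀ k, Field (K k)] [∀ k, NumberField (K k)] [∀ k, IsCMField (K k)]
    (pl : κ → HeightOneSpectrum (𝓞 F)) (a : κ → ℕ) (π : ∀ k, K k)
    (hπ : Describes P ι w p K pl a π) (hsep : Separated K)
    (hgood : ∀ k, GoodSlopes p (a k) (π k)) : Semisimple ρ := by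
  classical
  refine RelationFreeFrobenius.result ℓ ρ hρ τ ι w P T hT3 hT hP hpol
    (Or.inl fun k hk _ => ⟨p, hp, ?_⟩)
  rintro ⟨A, ⟨hcard, N, hN, hprod⟩, hA⟩
  have hpp : p.Prime := Fact.out
  have hp0 : p ≠ 0 := hpp.ne_zero
  -- the places above `p`
  have hfin : {v : HeightOneSpectrum (𝓞 F) | Above v p}.Finite := by
    have h1 : Ideal.span {(p : 𝓞 F)} ≠ 0 := by
      rw [Ne, Ideal.zero_eq_bot, Ideal.span_singleton_eq_bot]
      exact Nat.cast_ne_zero.2 hp0
    refine (Ideal.finite_factors h1).subset fun v hv => ?_
    change v.asIdeal ∣ _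
    rw [Ideal.dvd_span_singleton]
    exact hv
  have hne : {v : HeightOneSpectrum (𝓞 F) | Above v p}.Nonempty := by
    have h1 : (Ideal.span {(p : 𝓞 F)}) ≠ ⊤ := by
      intro h2
      rw [Ideal.span_singleton_eq_top] at h2
      have h3 : IsUnit ((p : ℤ)) := by
        have h4 := (NumberField.isUnit_iff_norm (K := F)).1 h2
        have h5 : (((p : 𝓞 F) : F)) = algebraMap ℚ F (p : ℚ) := by
          simp
        rw [RingOfIntegers.coe_norm] at h4
        rw [h5, Algebra.norm_algebraMap, abs_pow] at h4
        have h6 : |(p : ℚ)| = p := abs_of_nonneg (Nat.cast_nonneg p)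
        rw [h6] at h4
        have h7 : (p : ℚ) = 1 := by
          have h8 : 0 < finrank ℚ F := finrank_pos
          exact (pow_eq_one_iff_of_nonneg (Nat.cast_nonneg p) h8.ne').1 h4
        have h8 : p = 1 := by exact_mod_cast h7
        rw [h8]
        exact isUnit_one
      exact hpp.ne_one (Int.ofNat_isUnit.1 h3 |> Nat.isUnit_iff.1)
    obtain ⟨M, hM, hM1⟩ := Ideal.exists_le_maximal _ h1
    refine ⟨⟨M, hM.isPrime, ?_⟩, ?_⟩
    · intro h0
      rw [h0, le_bot_iff, Ideal.span_singleton_eq_bot] at hM1
      exact Nat.cast_ne_zero.2 hp0 hM1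
    · exact hM1 (Ideal.mem_span_singleton_self _)
  have hS : ∀ v, v ∈ hfin.toFinset ↔ Above v p := fun v => Set.Finite.mem_toFinset _
  have hprodS : (∏ᶠ (v : HeightOneSpectrum (𝓞 F)) (_ : Above v p), (A v).prod) =
      ∏ v ∈ hfin.toFinset, (A v).prod := by
    apply finprod_cond_eq_prod_of_cond_iff
    intro v _
    rw [hS]
  rw [hprodS] at hprod
  have hzero := no_isotropic (q := fun k => p ^ a k) (fun k => pow_ne_zero _ hp0)
    (fun k => by push_cast; exact hπ.weil k)
    (fun r n h x => rel_of_good hπ.pos hπ.weil hsep hgood r n h x) hfin.toFinset pl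
    (fun k => (hS _).2 (hπ.above k)) (fun v => ((P v).map ι).roots) A
    (fun v => (q v : ℂ) ^ w) (fun k => by
      have h1 := congrArg (fun x : ℝ => (x : ℂ)) (hπ.weight k)
      push_cast at h1 ⊢
      exact h1) (fun v hv => by
      obtain ⟨s, hs, hr⟩ := hπ.roots v ((hS v).1 hv)
      have h2 : s = Finset.univ.filter fun x : Σ k, (K k →+* ℂ) => pl x.1 = v := by
        ext x
        rw [hs, Finset.mem_filter]
        simp
      rw [← h2]
      exact le_of_eq hr) (fun v hv => hA v ((hS v).1 hv)) (2 * N) (by omega) _ hprod
  obtain ⟨v, hv⟩ := hne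
  have h1 := hcard v hv
  rw [hzero v ((hS v).2 hv), Multiset.card_zero] at h1
  omega

end Pool.Agent.Results.MP_8f1292_ag.HalfOrbitSlopes
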