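import Pool.Agent.Run7.h514.MT.SemiFam

/-!
# The Grothendieck-Serre semisimplicity conjecture for products of hyperkähler varieties

Let `X_1, …, X_r` be projective hyperkähler varieties over a number field `K`, of any deformation types.

**Theorem.** If the Mumford-Tate conjecture holds for the sum of the `H²(X_t)` (this is the theorem of
André for `r = 1` and of Commelin in general, `b_2 > 3`), then for all products `Y` of copies of the
`X_t` and all `i` and `ℓ` the representation of the Galois group of `K` on `H^i(Y, ℚ_ℓ)` is semisimple.
Hence the `ℓ`-adic realizations of all motives which are direct summands of the `h(Y)(n)` are semisimple.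

Before, this was known for the four known deformation types, where the motive of `X` is abelian.

Idea of the proof. Let `𝔪` be the Lie algebra of the Mumford-Tate group of `H^i(Y)`, a Lie algebra of
rational matrices. By the project MT457 (helper457, helper475, helper615, helper411: the action of
`so(H²)` on `H^i`, Sen's operators, Chebotarev's theorem, class field theory) the Lie algebra of the image
of the Galois group on `H^i(Y, ℚ_ℓ)` is `𝔪 ⊗ ℚ_ℓ`. Let `ψ` be a polarization of `H^i(Y)` (a tensor product
of polarizations of the factors). A complex subspace `N` which is stable under `𝔪` is stable under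
the Hodge operators and so under the operator `C` of Weil, and the elements of `𝔪` are similitudes of
`ψ`; so the orthogonal of `N` for the hermitian form `ψ(conj x, C y)` is stable under `𝔪`, and it is a
complement. So there is a projection to `N` which commutes with `𝔪`. With an embedding of `ℚ_ℓ` in the
field of complex numbers and a `ℚ_ℓ`-linear retraction one gets the same over `ℚ_ℓ`. For elements of the
Galois group near `1` a subspace which is stable under the logarithm is stable under the element;
average over a subgroup of finite index.
-/

set_option autoImplicit false

namespace Pool.Agent.Results.MP_8f1292_ag.HyperkaehlerProducts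

open Run7.h457.MT Run7.h514.MT NumberField Pool.Agent.W401.Cheb Matrix

/-- **Semisimplicity.** Let `V` be a finite family of projective hyperkähler varieties `V t` over the
number field `K` for which the Mumford-Tate conjecture holds in degree two. Let `Y` be the product of the
varieties `V (τ s)`, `s ∈ S`. Every subspace `M` of `H^i(Y, ℚ_ℓ)` which is stable under the Galois group
has a stable complement `M'`. -/
theorem result {K : Type} [Field K] [NumberField K] {ℓ : ℕ} [Fact ℓ.Prime] {T : Type} [Fintype T]
    [DecidableEq T] (V : T → HK K ℓ) (h2 : MumfordTateTwo V) (hpol : ∀ t, Polarizable (V t))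
    {S : Type} [Fintype S] [DecidableEq S] (τ : S → T) (i : ℕ)
    (M : Submodule ℚ_[ℓ] (Idx (fun s => V (τ s)) i → ℚ_[ℓ]))
    (hM : ∀ σ, ∀ x ∈ M, gal (fun s => V (τ s)) i σ *ᵥ x ∈ M) :
    ∃ M' : Submodule ℚ_[ℓ] (Idx (fun s => V (τ s)) i → ℚ_[ℓ]),
      (∀ σ, ∀ x ∈ M', gal (fun s => V (τ s)) i σ *ᵥ x ∈ M') ∧ IsCompl M M' :=
  semisimple V τ h2 hpol i M hM

end Pool.Agent.Results.MP_8f1292_ag.HyperkaehlerProducts
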